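import Pool.Agent.H83.AT.Targets

/-!
Module PX: pullbacks are exact.
-/

open CategoryTheory CategoryTheory.Limits TopologicalSpace Topology Set Opposite

namespace Pool.Agent.H76.AT

open Pool.Agent.H96.AL Pool.Agent.H83.AT

theorem px (ps : T_PS) (ex : T_EX) : T_PX := by
  intro F _ X Y f
  apply ex
  intro y
  right
  refine ⟨f y, fun A => LinearEquiv.ofBijective (sg f A y) (ps F X Y f A y), ?_⟩
  intro A B φ g
  exact sg_nat f φ y g

end Pool.Agent.H76.AT
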